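import Pool.Agent.H556R2.Complete

/-!
# The Borel complexity of the relations between `BPP` and `NP`

Relative to an oracle `A`, a subset of the set of all bit strings, the relation of `BPP` and `NP`
depends on `A`. The theorem determines how complicated this dependence is: the set of the `A`
with `BPP^A ⊆ NP^A` is `Π⁰₃`-complete, and the set of the `A` for which `BPP^A` and `NP^A` are
incomparable is `Σ⁰₃`-complete, both for continuous reductions in the space of all oracles. Hence
no criterion for `BPP^A ⊆ NP^A` can have the form of a countable union of closed or of `Gδ`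
conditions on `A`.
-/

namespace Pool.Agent.Results.MP_b6562f_lc.BorelComplexity

open H556R2

theorem result :
    Pi03Complete {A : Oracle | ClassBPP A ⊆ ClassNP A} ∧
    Sigma03Complete {A : Oracle | ¬ ClassNP A ⊆ ClassBPP A ∧ ¬ ClassBPP A ⊆ ClassNP A} := by
  refine ⟨⟨?_, ?_⟩, BPP_NP_incomparable_complete⟩
  · exact sigma_BPP_NP
  · intro X _ _ hX D hD
    obtain ⟨α, hα, h1, h2⟩ := exists_matrix hX hD
    refine ⟨fun x => OA (α x), continuous_OA hα, ?_⟩
    ext x
    simp only [Set.mem_preimage, Set.mem_ofPred_eq]
    constructor
    · intro h3
      by_contra hx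
      obtain ⟨i, hi⟩ := h1 x hx
      exact OA_inf_BPP hi h3
    · intro hx
      exact (OA_fin_BPP (h2 x fun h => h hx)).trans (classP_subset_classNP _)

end Pool.Agent.Results.MP_b6562f_lc.BorelComplexity
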