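import Pool.Agent.TH683.RB.Changed

/-!
# How many strings of a random oracle have to be changed to alter the relation of `BPP` and `NP`?

For almost every oracle `O` (Bennett and Gill 1981) `BPP = P` and `NP ⊄ BPP` relative to `O`. Here
an adversary who knows `O` changes, for all large `n`, at most `g n` of the strings of length at
most `n`; the result is the oracle `A`. The theorem says for every function `g` which relations of
`BPP` and `NP` can be produced in this way:

* if `g` is polynomially bounded, then only `BPP ⊊ NP`;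
* if `g` is not polynomially bounded, then also that `BPP` and `NP` are incomparable;
* `NP ⊆ BPP` can be produced if and only if `g n > 2 ^ (n ^ ε)` for some `ε > 0` and all large `n`,
  and then both `NP = BPP` and `NP ⊊ BPP` can be produced, from every oracle `O`.

(Polynomially bounded means here that for some `c` and all large `n` there is `m ≥ n` with
`g m ≤ n ^ c`. If `g` is nondecreasing, this says that `g n ≤ n ^ c` for some `c` and all large `n`;
in general it is the right condition, since the number of changed strings of length at most `n` is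
nondecreasing in `n`.)
-/

set_option autoImplicit false

namespace Pool.Agent.Results.MP_b6562f_lc.ChangedStrings

open Pool.Agent.NPC Pool.Agent.H620R2.Gauge Pool.Agent.TH683.RB
open Pool.Agent.H628R3.RO (randomOracle)
open Pool.Agent.W900.CH (Close)
open MeasureTheory

theorem result (g : ℕ → ℝ) :
    ((∃ c : ℕ, ∀ᶠ n : ℕ in Filter.atTop, ∃ m ≥ n, g m ≤ (n : ℝ) ^ c) →
      ∀ᵐ O ∂randomOracle, ∀ A : Oracle, Close g O A →
        (∀ L, IsBPP3 A L → IsP A L) ∧ ∃ L, IsNP A L ∧ ¬ IsBPP3 A L) ∧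
    ((¬ ∃ c : ℕ, ∀ᶠ n : ℕ in Filter.atTop, ∃ m ≥ n, g m ≤ (n : ℝ) ^ c) →
      ∀ᵐ O ∂randomOracle, ∃ A : Oracle, Close g O A ∧
        (∃ L, IsBPP3 A L ∧ ¬ IsNP A L) ∧ ∃ L, IsNP A L ∧ ¬ IsBPP3 A L) ∧
    ((∀ ε : ℝ, 0 < ε → ∃ᶠ n : ℕ in Filter.atTop, g n ≤ 2 ^ (n : ℝ) ^ ε) →
      ∀ᵐ O ∂randomOracle, ∀ A : Oracle, Close g O A → ∃ L, IsNP A L ∧ ¬ IsBPP3 A L) ∧
    ((¬ ∀ ε : ℝ, 0 < ε → ∃ᶠ n : ℕ in Filter.atTop, g n ≤ 2 ^ (n : ℝ) ^ ε) →
      ∀ O : Oracle, (∃ A : Oracle, Close g O A ∧ ∀ L, IsNP A L ↔ IsBPP3 A L) ∧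
        ∃ A : Oracle, Close g O A ∧ (∀ L, IsNP A L → IsBPP3 A L) ∧
          ∃ L, IsBPP3 A L ∧ ¬ IsNP A L) :=
  ⟨few_bpp, many_bpp, low_bpp, fun hg O => ⟨high_eq hg O, high_ssub hg O⟩⟩

end Pool.Agent.Results.MP_b6562f_lc.ChangedStrings
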