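import Pool.Agent.TH683.GP.Fin

/-!
# How many oracles produce each of the possible relations of `BPP` and `NP`?

The size of a set of oracles is measured by gauges `f` (Hausdorff measures of arbitrary dimension
functions): `X` is a null set for `f` if it can be covered by cylinders, given by finite sequences
`σ` of bits, such that the sum of `2 ^ (f |σ| - |σ|)` is as small as one likes. For `f = 0` these
are the sets of measure zero.

* The oracles with `BPP ⊄ NP` are a null set for `f`, and so are those for which `BPP` and `NP` are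
  incomparable, if and only if for some `C` and all large `N` there is `N' ≥ N` with
  `f N' ≤ (log N) ^ C`.
* The oracles with `NP ⊆ BPP`, with `NP = BPP`, with `NP ⊊ BPP` are null sets for `f` if and only if
  for every `ε > 0` there are infinitely many `N` with `f N ≤ 2 ^ ((log N) ^ ε)`.

The remaining relation, `BPP ⊊ NP`, holds for almost all oracles.
-/

set_option autoImplicit false

namespace Pool.Agent.Results.MP_b6562f_lc.GaugeThreshold

open Pool.Agent.NPC Pool.Agent.H620R2.Gauge Pool.Agent.TH683.RB Pool.Agent.TH683.GP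

theorem result (f : ℕ → ℝ) :
    (Null f {A : Oracle | ∃ L, IsBPP3 A L ∧ ¬ IsNP A L} ↔
      ∃ C : ℕ, ∀ᶠ N : ℕ in Filter.atTop, ∃ N' ≥ N, f N' ≤ (Real.logb 2 N) ^ C) ∧
    (Null f {A : Oracle | (∃ L, IsBPP3 A L ∧ ¬ IsNP A L) ∧ ∃ L, IsNP A L ∧ ¬ IsBPP3 A L} ↔
      ∃ C : ℕ, ∀ᶠ N : ℕ in Filter.atTop, ∃ N' ≥ N, f N' ≤ (Real.logb 2 N) ^ C) ∧
    (Null f {A : Oracle | ∀ L, IsNP A L → IsBPP3 A L} ↔
      ∀ ε : ℝ, 0 < ε → ∃ᶠ N : ℕ in Filter.atTop, f N ≤ 2 ^ (Real.logb 2 N) ^ ε) ∧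
    (Null f {A : Oracle | ∀ L, IsNP A L ↔ IsBPP3 A L} ↔
      ∀ ε : ℝ, 0 < ε → ∃ᶠ N : ℕ in Filter.atTop, f N ≤ 2 ^ (Real.logb 2 N) ^ ε) ∧
    (Null f {A : Oracle | (∀ L, IsNP A L → IsBPP3 A L) ∧ ∃ L, IsBPP3 A L ∧ ¬ IsNP A L} ↔
      ∀ ε : ℝ, 0 < ε → ∃ᶠ N : ℕ in Filter.atTop, f N ≤ 2 ^ (Real.logb 2 N) ^ ε) :=
  ⟨gauge_bpp_np f, gauge_incomp f, gauge_np_bpp f, gauge_eq f, gauge_ssub f⟩

end Pool.Agent.Results.MP_b6562f_lc.GaugeThreshold
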