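import Pool.Agent.TH684.RX.ThmR

/-!
# `NP ⊆ BPP`, guessing worse than at random, and threshold gates with random inputs

Polynomial time is Mathlib's `Turing.TM2ComputableInPolyTime`, for functions on bit strings.

Consider `m` questions about membership in an `NP`-hard set `A`, for strings of length at most `n`,
where `m` is polynomial in `n`, and polynomially many explicit vectors, number `0` to `F - 1`. A random
number below `F` is the number of the vector of the answers with probability at most `1 / F`. We show
that `NP ⊆ BPP` (and then, by a theorem of Ko, `NP = RP`) as soon as a probabilistic polynomial-time
algorithm does slightly better in avoiding the true vector: with probability at most `(1 - 1 / q n) / F`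
for a polynomial `q`. For instance: it is hard for `RP` to find, in a list of `m` formulas, a position
`i` such that the formula number `i` is not the only satisfiable one, with an error probability that is
smaller than `1 / m`, the one for random `i`, by an inverse polynomial factor.

The second part is about threshold gates with random inputs. Let `f` be a probabilistic
polynomial-time algorithm whose outputs are integer vectors of dimension at most `D`, where `D` is
polynomial in the length (large numbers are allowed as entries). If there are real weights and a
threshold, which are arbitrary and may depend on the length in any way, such that for every string `x`
the gate tells with probability at least `1 - 1 / (32 (D + 1))` from the output for `x` whether `x ∈ A`,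
where `A` is `NP`-hard, then again `NP ⊆ BPP`.

Proof. First part: independent runs; an output that occurs in at least one of `F` runs on average is
not the true vector, with high probability. So one vector is excluded for each of polynomially many
lists, and the search of `MP_8a52c3_lc.OneExcludedVector` finds isolated witnesses. Second part: the
vectors for random questions are brought, in polynomial time, in radial isotropic position (the
polynomial-time form of Forster's theorem, `Pool.Agent.TH684.LT`). For each choice of the random bits of
`f`, seven of eight rows of a Hadamard matrix are certified to differ from all half-spaces at a
fraction of at least `1 / (24 (D + 1))` of the positions. A random certified row is a guess for the vector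
of the answers which is worse than a random one, by Markov's inequality.
-/

set_option autoImplicit false

namespace Pool.Agent.Results.MP_b6562f_lc.RandomizedGate

open Pool.Agent.NPC Pool.Agent.H251R5.PQ Pool.Agent.TH684.EX Pool.Agent.TH684.RX

/-- **Guessing worse than at random, and random gates.** The following are equivalent: `NP = RP`;
`NP ⊆ BPP`; for some `NP`-hard set and some strongly explicit family of vectors, the vector of the
answers to polynomially many questions can be guessed worse than at random; for some `NP`-hard set one
can find, better than at random, an index `i` such that the string number `i` is not the only member;
some `NP`-hard set is decided by one threshold gate with random inputs; the last two properties hold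
for all sets in `NP`. -/
theorem result : List.TFAE
    [∀ L : Set (List Bool), InNP L → Pool.Agent.W920.NL.InRP L,
      ∀ L : Set (List Bool), InNP L → Pool.Agent.W920.NL.InBPP L,
      ∃ A L : Set (List Bool), NPHard A ∧ InP L ∧ AntiGuess L A,
      ∃ A : Set (List Bool), NPHard A ∧ FindNotOnly A,
      ∃ A : Set (List Bool), NPHard A ∧ RandomGate A,
      ∀ A : Set (List Bool), InNP A → FindNotOnly A ∧ RandomGate A] :=
  rp_tfae

end Pool.Agent.Results.MP_b6562f_lc.RandomizedGate
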